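import Pool.Agent.H13.Gap.Close

/-!
# MP_28b04d_gt, Q1: finitely many isotopy classes without concentration of the conformally invariant energy

Q1 asks whether every diffeomorphism of `CP²` that acts trivially on homology is smoothly isotopic to the identity,
that is, whether there is only one isotopy class of such diffeomorphisms. Such a diffeomorphism `φ` has a lift `F` to a
smooth map of `ℂ³ ∖ 0` with `F (c v) = c (F v)` for complex numbers `c`. The theorem is a finiteness theorem for the
number of isotopy classes, stated for all projective spaces `CP^n`, `n ≥ 1`, modelled as in the frozen statement by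
the Hermitian projections of rank one.

There is a constant `ε > 0` which depends only on `n` with the following property. Let `0 < m`, `M` and `s₀ > 0` be
arbitrary. Consider the diffeomorphisms of `CP^n` which have a lift `F` such that the differential `DF` stretches all
vectors at least by the factor `m` and at most by the factor `M`, and such that the energy of `F`, the integral of
`‖D²F‖^(2n)`, near each complex line (over the points of the annulus `1 ≤ ‖x‖ ≤ 2` at distance at most `2 s₀` from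
the line) is at most `(ε m)^(2n)`. These diffeomorphisms belong to finitely many smooth isotopy classes; their number
is bounded in terms of `n`, `m`, `M` and `s₀`. For `CP²` this is the fourth power of the second derivative, and the
exponent is scale invariant: the condition does not give a modulus of continuity of the differential, the total
energy is not assumed to be small or bounded by a given constant, and the set of diffeomorphisms is not precompact in
the `C¹` topology. In particular every family of diffeomorphisms with bi-Lipschitz lifts of bounded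
constants, for which the functions `‖D²F‖^(2n)` are uniformly integrable, lies in finitely many isotopy classes.

The proof. By Poincaré's inequality and an averaging over the complex numbers the mean oscillation of `DF` is small at
all scales `s ≤ s₀`; the homogeneous mollifications of `F` at these scales are local diffeomorphisms, and so are the
maps on the linear path between the mollifications of two lifts at the scale `s₀` if the lifts are close in the
uniform norm. The set of the lifts is totally bounded in the uniform norm.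
-/

set_option autoImplicit false

open Set Function MeasureTheory
open scoped ContDiff

noncomputable section

namespace Pool.Agent.Results.MP_28b04d_gt.FinitelyManyClasses

/-- `ℂ^(n+1)` -/
abbrev V (n : ℕ) : Type := EuclideanSpace ℂ (Fin (n + 1))

/-- the complex `(n+1) × (n+1)` matrices -/
abbrev Mat (n : ℕ) : Type := Fin (n + 1) → Fin (n + 1) → ℂ

/-- the projective space `CP^n`: the Hermitian idempotent matrices of trace one -/
def CP (n : ℕ) : Set (Mat n) :=
  {P | (∀ i j, P j i = star (P i j)) ∧ (∀ i j, ∑ k, P i k * P k j = P i j) ∧ ∑ i, P i i = 1}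

/-- the point of `CP^n` with homogeneous coordinates `v`: the orthogonal projection onto the line
of `v`, for `v ≠ 0` -/
def line {n : ℕ} (v : V n) : Mat n := fun i j => v i * star (v j) / ((‖v‖ ^ 2 : ℝ) : ℂ)

/-- `φ` is a diffeomorphism of `CP^n` -/
def IsDiffeo {n : ℕ} (φ : Mat n → Mat n) : Prop :=
  ContDiff ℝ ∞ φ ∧ (∀ P ∈ CP n, φ P ∈ CP n) ∧ ∃ ψ : Mat n → Mat n, ContDiff ℝ ∞ ψ ∧
    ∀ P ∈ CP n, ψ P ∈ CP n ∧ ψ (φ P) = P ∧ φ (ψ P) = P

/-- `φ` and `ψ` are joined by a smooth path of diffeomorphisms of `CP^n` -/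
def SmoothlyIsotopic {n : ℕ} (φ ψ : Mat n → Mat n) : Prop :=
  ∃ K : ℝ × Mat n → Mat n, ContDiff ℝ ∞ K ∧ (∀ t : ℝ, ∀ P ∈ CP n, K (t, P) ∈ CP n) ∧
    (∀ P ∈ CP n, K (0, P) = φ P) ∧ (∀ P ∈ CP n, K (1, P) = ψ P) ∧
    ∀ t : ℝ, ∃ L : Mat n → Mat n, ContDiff ℝ ∞ L ∧
      ∀ P ∈ CP n, L P ∈ CP n ∧ L (K (t, P)) = P ∧ K (t, L P) = P

/-- the norm of the real differential of `F` at `v` in the direction `h` -/
def stretch {n : ℕ} (F : V n → V n) (v h : V n) : ℝ := ‖fderiv ℝ F v h‖

/-- the operator norm of the second derivative of `F` at `x` -/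
def secondNorm {n : ℕ} (F : V n → V n) (x : V n) : ℝ := ‖iteratedFDeriv ℝ 2 F x‖

/-- `F` is smooth off the origin, homogeneous under multiplication by complex numbers, a lift of `φ`, and its real
differential stretches all vectors at least by the factor `m` and at most by the factor `M` -/
structure IsLift {n : ℕ} (φ : Mat n → Mat n) (F : V n → V n) (m M : ℝ) : Prop where
  smooth : ContDiffOn ℝ ∞ F {0}ᶜ
  hom : ∀ (c : ℂ) (v : V n), F (c • v) = c • F v
  lift : ∀ v, v ≠ 0 → φ (line v) = line (F v)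
  lower : ∀ v, v ≠ 0 → ∀ h, m * ‖h‖ ≤ stretch F v h
  upper : ∀ v, v ≠ 0 → ∀ h, stretch F v h ≤ M * ‖h‖

/-- the energy near the complex line of the unit vector `v`: the integral of the power `2 n` of the norm of the second
derivative over the points of the annulus at distance at most `2 s` from the line -/
def energyNear {n : ℕ} (F : V n → V n) (v : V n) (s : ℝ) : ℝ :=
  ∫ x in {x : V n | 1 ≤ ‖x‖ ∧ ‖x‖ ≤ 2 ∧ ‖x - (inner ℂ v x : ℂ) • v‖ ≤ 2 * s},
    secondNorm F x ^ (2 * n)

lemma secondNorm_eq {n : ℕ} (F : V n → V n) (x : V n) : secondNorm F x = ‖fderiv ℝ (fderiv ℝ F) x‖ := by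
  unfold secondNorm
  rw [← norm_iteratedFDeriv_fderiv, norm_iteratedFDeriv_one]

theorem result (n : ℕ) (hn : 1 ≤ n) : ∃ ε : ℝ, 0 < ε ∧ ∀ m M s₀ : ℝ, 0 < m → 0 < s₀ → ∃ N : ℕ,
    ∀ φ : Fin (N + 1) → Mat n → Mat n, (∀ i, IsDiffeo (φ i)) →
      (∀ i, ∃ F : V n → V n, IsLift (φ i) F m M ∧
        ∀ v, ‖v‖ = 1 → energyNear F v s₀ ≤ (ε * m) ^ (2 * n)) →
      ∃ i j, i ≠ j ∧ SmoothlyIsotopic (φ i) (φ j) := by
  set k := Pool.Agent.H13.Gap.kb (V n) with hk
  have hkp : 0 < k := Pool.Agent.H13.Gap.kb_pos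
  set e := (Pool.Agent.H13.Gap.ce n).toReal with he
  have hep : 0 ≤ e := ENNReal.toReal_nonneg
  refine ⟨1 / (32 * k * (1 + e)), by positivity, ?_⟩
  intro m M s₀ hm hs₀
  set ε := 1 / (32 * k * (1 + e)) with hε
  have hεp : 0 < ε := by positivity
  -- the scale and the distance
  set s : ℝ := min s₀ (1 / 4) with hs
  have hsp : 0 < s := lt_min hs₀ (by norm_num)
  have hs4 : s ≤ 1 / 4 := min_le_right _ _
  have hss : s ≤ s₀ := min_le_left _ _
  set ck := Pool.Agent.Q196.NP.ck (V n) with hck
  have hck0 : 0 ≤ ck := Pool.Agent.Q196.NP.ck_nonneg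
  set δ : ℝ := m / (8 * (1 + ck * s⁻¹)) with hδ
  have hden : 0 < 1 + ck * s⁻¹ := by positivity
  have hδp : 0 < δ := by positivity
  have hδs : 2 * δ + ck * (s⁻¹ * (2 * δ)) ≤ m / 4 := by
    have h1 : 2 * δ + ck * (s⁻¹ * (2 * δ)) = 2 * (δ * (1 + ck * s⁻¹)) := by ring
    rw [h1, hδ]
    have h2 : m / (8 * (1 + ck * s⁻¹)) * (1 + ck * s⁻¹) = m / 8 := by
      field_simp
    rw [h2]
    linarith
  obtain ⟨N, hN⟩ := Pool.Agent.H13.Gap.pigeon (W := V n) (M := |M|) (abs_nonneg M) hδp
  refine ⟨N, fun φ hφ hF => ?_⟩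
  choose F hF hE using hF
  have hr : ∀ (r : ℝ) (v : V n), r • v = ((r : ℂ)) • v := fun r v => (Complex.coe_smul r v).symm
  have hhomR : ∀ i, ∀ r : ℝ, 0 ≤ r → ∀ v, F i (r • v) = r • F i v := by
    intro i r _ v
    rw [hr, hr, (hF i).hom]
  have hL : ∀ i, Pool.Agent.H13.Gap.Lower (F i) m := fun i => ⟨(hF i).smooth, hhomR i, (hF i).lower⟩
  have hU : ∀ i, ∀ R ∈ Pool.Agent.Q196.NP.U1 n, ∀ v, F i (R v) = R (F i v) := by
    rintro i _ ⟨μ, hμ, rfl⟩ v
    exact (hF i).hom μ v
  have hHD : ∀ i, Pool.Agent.Q196.NP.HD (Pool.Agent.Q196.NP.U1 n) (F i) := by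
    intro i
    refine ⟨hhomR i, hU i, fun v hv => ?_⟩
    obtain ⟨A, hA⟩ := Pool.Agent.H13.Gap.equiv_of_lower hm ((hF i).lower v hv)
    exact ⟨A, by rw [hA]; exact Pool.Agent.H13.Gap.hasF (hF i).smooth hv⟩
  have hMn : ∀ i, ∀ v, v ≠ 0 → ‖fderiv ℝ (F i) v‖ ≤ |M| := by
    intro i v hv
    refine ContinuousLinearMap.opNorm_le_bound _ (abs_nonneg M) fun h => ?_
    exact ((hF i).upper v hv h).trans (mul_le_mul_of_nonneg_right (le_abs_self M) (norm_nonneg h))
  have hκ : ∀ i, ∀ r, 0 < r → r ≤ s → ∀ v, ‖v‖ = 1 →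
      Pool.Agent.H13.Gap.Small (F i) (e * (ε * m)) r v := by
    intro i r hr0 hrs v hv
    have hsub : Pool.Agent.H13.Gap.Tube v r ⊆ Pool.Agent.H13.Gap.Tube v s₀ := by
      intro x hx
      exact ⟨hx.1, hx.2.1, hx.2.2.trans (by linarith)⟩
    have hE0 : ∫ x in Pool.Agent.H13.Gap.Tube v s₀, ‖fderiv ℝ (fderiv ℝ (F i)) x‖ ^ (2 * n) ≤
        (ε * m) ^ (2 * n) := by
      simp_rw [← secondNorm_eq]
      exact hE i v hv
    have hE1 := Pool.Agent.H13.Gap.energy_lint (hF i).smooth
      (Pool.Agent.H13.Gap.tube_sub v s₀) hE0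
    obtain ⟨C, hC⟩ := Pool.Agent.H13.Gap.osc_energy hn (hF i).smooth (hF i).hom hv hr0
      (hrs.trans hs4) (δ := ε * m) (by positivity) ((lintegral_mono_set hsub).trans hE1)
    refine Pool.Agent.H13.Gap.small_of_lint (hF i).smooth hr0 (by rw [hv]; linarith)
      (C := C) (by positivity) (hC.trans (le_of_eq ?_))
    rw [ENNReal.ofReal_mul hep, he, ENNReal.ofReal_toReal (Pool.Agent.H13.Gap.ce_ne_top hn)]
  have hsm : 2 * k * (e * (ε * m)) < m / 8 := by
    have h1 : 32 * k * e * ε < 1 := by
      rw [hε, mul_one_div, div_lt_one (by positivity)]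
      nlinarith [mul_nonneg hkp.le hep]
    nlinarith
  obtain ⟨i, j, hij, hclose⟩ := hN F
    (fun i v hv => by
      have hv0 : v ≠ 0 := norm_ne_zero_iff.1 (by rw [hv]; norm_num)
      rw [← Pool.Agent.H13.Gap.euler (hF i).smooth (hhomR i) hv0]
      refine (ContinuousLinearMap.le_opNorm _ _).trans ?_
      rw [hv, mul_one]
      exact hMn i v hv0)
    (fun i v x hv _ hvx => Pool.Agent.H13.Gap.lip_sphere (hF i).smooth (hMn i) hv hvx)
  refine ⟨i, j, hij, ?_⟩
  have hstep : ∀ i, Pool.Agent.Q196.NP.Iso (Pool.Agent.Q196.NP.U1 n) (F i)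
      (Pool.Agent.Q196.NP.Gs s (F i)) := fun i =>
    Pool.Agent.H13.Gap.iso_Gs_of_HD (hF i).smooth (hHD i) hsp (by linarith) fun r hr0 hrs =>
      Pool.Agent.H13.Gap.Gs_HD_small (hL i) (hU i) hr0 (by linarith) (hκ i r hr0 hrs) hsm
        (by linarith)
  have hmid := Pool.Agent.H13.Gap.iso_close hm (hL i) (hL j) (hU i) (hU j) hsp (by linarith)
    (hκ i s hsp le_rfl) (hκ j s hsp le_rfl) hsm (by linarith) hδp.le hclose hδs
  have hI := (hstep i).trans (hmid.trans (hstep j).symm)
  obtain ⟨hφs, hφm, φ', hφ's, hφ'⟩ := hφ i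
  exact Pool.Agent.H13.Gap.isotopy_of_iso hφs hφm hφ's hφ' (hF i).smooth (hF i).lift (hF j).lift hI

end Pool.Agent.Results.MP_28b04d_gt.FinitelyManyClasses
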