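import Pool.Agent.H33.PI.Conv

/-!
# MP_28b04d_gt, Q1: smooth isotopy is equivalent to a three-point condition on continuous paths of maps

Q1 asks whether every diffeomorphism of `CP²` that acts trivially on homology is smoothly isotopic to the identity.
Such a diffeomorphism is homotopic, and by the theorems of Perron and Quinn even topologically isotopic, to the
identity; the question is whether the path can be made smooth. The theorem characterizes the pairs of smoothly
isotopic diffeomorphisms `φ₀, φ₁ : M → N` of closed connected smooth `n`-manifolds, `n ≥ 3` (for Q1 `M = N = CP²`),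
by a condition on continuous paths of continuous maps `f_t : M → N`, `0 ≤ t ≤ 1`, from `φ₀` to `φ₁`, in which neither
derivatives nor linear maps occur, but only the distances of three points.

Let `e : M → ℝᵐ` and `j : N → ℝᵏ` be injective immersions; they measure the distances in `M` and `N` (by the embedding
theorem of Nash all Riemannian metrics are induced by such maps). Let `S` be a set of scales which contains
arbitrarily small positive numbers; it may be a sequence which tends to zero arbitrarily fast. Write `F t = j ∘ f_t`.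

There is a function `δ : [1, ∞) → (0, ∞)`, which depends only on `n`, such that `φ₀` and `φ₁` are smoothly isotopic if
and only if they are joined by a continuous path of continuous maps `f_t` with the following property. For each
`(t₀, x)` there are `K ≥ 1` and `τ > 0` such that for all `t` near `t₀`, all `s ∈ S` small enough and all `u`, `v`, `w`
near `x` such that `|e u - e v|` and `|e u - e w|` differ from `s` by at most `τ s`:

* (eccentricity) if `|e v - e w|` differs from `s` by at most `τ s`, then `|F t u - F t v| < K |F t u - F t w|`;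
* (antipodal points) if `|e v - e w|` differs from `2 s` by at most `τ s`, then
  `|F t v + F t w - 2 F t u| ≤ δ(K) |F t u - F t v|`.

So the images under `f_t` of the small spheres with radii in `S` have bounded eccentricity, with an arbitrary bound
`K` which may depend on the point, and the images of two nearly antipodal points of such a sphere around `u` are
nearly antipodal with respect to `f_t u`. The maps `f_t` are not assumed to be injective, differentiable or Lipschitz,
the sizes of the images of the spheres are not bounded from below or above by any multiple of the radius, the path is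
only assumed to be continuous in `t`, and nothing is assumed about the distances which are not close to `s` or `2 s`
for some `s ∈ S`. In particular (Q1) all diffeomorphisms of `CP²` which act trivially on homology are smoothly
isotopic to the identity if and only if they are joined to the identity by such paths.

The proof.
* A smooth isotopy has the property, for all `e`, `j`, `S` (`midP_of_smooth`): `K` is determined by the derivative.
* Conversely, a limit argument with a theorem of Beckman-Quarles type for affine maps (`near_affine`, proved for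
  another problem) shows that at the scales `s ∈ S` the maps `f_t` are close to affine isomorphisms of bounded
  eccentricity (`cg_of_mid`), up to a small multiple of the size of the image.
* The averages of `f_t` over balls of one small radius `s ∈ S`, followed by the nearest point retraction onto `j(N)`,
  are local diffeomorphisms, and so are the averages of all maps which are close to `f_t` (`fam_low`, `iso_main`); so
  the averages for close times are joined by linear interpolation. The library has this for paths for which the inverse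
  affine maps are bounded uniformly in the scale; here they are unbounded as `s` tends to zero. The closeness is
  allowed to depend on `s`, and for each `s` the sizes of the images of the spheres of radius `s` have a positive lower
  bound, by compactness.
-/

set_option autoImplicit false

open Set Filter Topology Metric Function
open scoped Manifold ContDiff

noncomputable section

namespace Pool.Agent.Results.MP_28b04d_gt.NearlyAntipodalPaths

/-- `ℝⁿ` -/
abbrev R (n : ℕ) : Type := EuclideanSpace ℝ (Fin n)

/-- the set of scales contains arbitrarily small positive numbers -/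
def SmallScales (S : Set ℝ) : Prop := ∀ δ : ℝ, 0 < δ → ∃ s ∈ S, 0 < s ∧ s < δ

section defs

variable {M N : Type} [TopologicalSpace M] [TopologicalSpace N] {m k : ℕ}

/-- `φ` is a diffeomorphism of smooth `n`-manifolds -/
def IsDiffeo (n : ℕ) [ChartedSpace (R n) M] [ChartedSpace (R n) N] (φ : M → N) : Prop :=
  ∃ Φ : Diffeomorph (𝓡 n) (𝓡 n) M N ∞, ∀ x, Φ x = φ x

/-- `φ₀` and `φ₁` are joined by a smooth path of diffeomorphisms -/
def SmoothlyIsotopic (n : ℕ) [ChartedSpace (R n) M] [ChartedSpace (R n) N] (φ₀ φ₁ : M → N) : Prop :=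
  ∃ K : ℝ × M → N, ContMDiff ((𝓘(ℝ, ℝ)).prod (𝓡 n)) (𝓡 n) ∞ K ∧ (∀ t, IsDiffeo n (fun x => K (t, x))) ∧
    (∀ x, K (0, x) = φ₀ x) ∧ ∀ x, K (1, x) = φ₁ x

/-- `e` is a smooth immersion at `x`: in a smooth parametrization `A` of a neighbourhood of `x = A 0` (a local
diffeomorphism at `0`) it is smooth near `0` with an injective derivative at `0`. -/
def IsImmersed (n : ℕ) [ChartedSpace (R n) M] (e : M → R m) (x : M) : Prop :=
  ∃ A : R n → M, A 0 = x ∧ IsLocalDiffeomorphAt (𝓡 n) (𝓡 n) ∞ A 0 ∧
    (∀ᶠ z in 𝓝 (0 : R n), ContDiffAt ℝ ∞ (fun z => e (A z)) z) ∧ Injective (fderiv ℝ (fun z => e (A z)) 0)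

/-- `e` is a continuous injective immersion -/
def IsEmb (n : ℕ) [ChartedSpace (R n) M] (e : M → R m) : Prop :=
  Continuous e ∧ Injective e ∧ ∀ x, IsImmersed n e x

/-- There are neighbourhoods `W` of `t₀` and `U` of `x`, `r > 0` and `τ > 0` such that the following holds for all
`t ∈ W`, all `s ∈ S` with `0 < s < r` and all `u`, `v`, `w ∈ U` such that `‖e u - e v‖` and `‖e u - e w‖` differ from
`s` by at most `τ s`: if `‖e v - e w‖` differs from `s` by at most `τ s`, then `‖F t u - F t v‖ < K ‖F t u - F t w‖`;
and if it differs from `2 s` by at most `τ s`, then `‖F t v + F t w - 2 F t u‖ ≤ δ ‖F t u - F t v‖`. -/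
def NearlyAntipodalAt (e : M → R m) (F : unitInterval → M → R k) (S : Set ℝ) (K δ : ℝ) (t₀ : unitInterval)
    (x : M) : Prop :=
  ∃ W ∈ 𝓝 t₀, ∃ U ∈ 𝓝 x, ∃ r : ℝ, 0 < r ∧ ∃ τ : ℝ, 0 < τ ∧ ∀ t ∈ W, ∀ s ∈ S, 0 < s → s < r →
    ∀ u ∈ U, ∀ v ∈ U, ∀ w ∈ U,
    |‖e u - e v‖ - s| ≤ τ * s → |‖e u - e w‖ - s| ≤ τ * s →
      (|‖e v - e w‖ - s| ≤ τ * s → ‖F t u - F t v‖ < K * ‖F t u - F t w‖) ∧
      (|‖e v - e w‖ - 2 * s| ≤ τ * s → ‖F t v + F t w - (2 : ℝ) • F t u‖ ≤ δ * ‖F t u - F t v‖)

end defs

/-- Two diffeomorphisms `φ₀, φ₁ : M → N` of closed connected smooth `n`-manifolds, `n ≥ 3`, are smoothly isotopic if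
and only if they are joined by a continuous path of continuous maps with `NearlyAntipodalAt e F S K (δ K)` at every
point `(t, x)`, with some `K ≥ 1` which may depend on the point. The function `δ` depends only on `n`. -/
theorem result (n : ℕ) (hn : 3 ≤ n) : ∃ δ : ℝ → ℝ, (∀ K, 1 ≤ K → 0 < δ K) ∧
    ∀ (M N : Type) [TopologicalSpace M] [TopologicalSpace N]
    [CompactSpace M] [T2Space M] [ConnectedSpace M] [CompactSpace N] [T2Space N]
    [ChartedSpace (R n) M] [ChartedSpace (R n) N] [IsManifold (𝓡 n) ∞ M] [IsManifold (𝓡 n) ∞ N]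
    -- the maps which measure distances in `M` and `N`, and the set of scales
    (m k : ℕ) (e : M → R m) (_ : IsEmb n e) (j : N → R k) (_ : IsEmb n j) (S : Set ℝ) (_ : SmallScales S)
    -- the diffeomorphisms
    (φ₀ φ₁ : M → N) (_ : IsDiffeo n φ₀) (_ : IsDiffeo n φ₁),
    SmoothlyIsotopic n φ₀ φ₁ ↔ ∃ f : C(unitInterval × M, N), (∀ x, f (0, x) = φ₀ x) ∧ (∀ x, f (1, x) = φ₁ x) ∧
      ∀ t x, ∃ K, 1 ≤ K ∧ NearlyAntipodalAt e (fun t x => j (f (t, x))) S K (δ K) t x := by
  classical
  obtain ⟨d, rfl⟩ : ∃ d, n = d + 1 := ⟨n - 1, by omega⟩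
  obtain ⟨κ, hκd⟩ : ∃ κ : ℝ, κ = Pool.Agent.H865_small.vol (d + 1) / (2 * Pool.Agent.H865_small.vol d) := ⟨_, rfl⟩
  have hκ : 0 < κ := by
    have := Pool.Agent.H865_small.vol_pos d
    have := Pool.Agent.H865_small.vol_pos (d + 1)
    rw [hκd]
    positivity
  have H : ∀ K : ℝ, ∃ δ : ℝ, 1 ≤ K → 0 < δ ∧
      ∀ (m k : ℕ) (X Y T : Type) [TopologicalSpace X] [ChartedSpace (Pool.Agent.H33.NC.E (d + 1)) X]
      [TopologicalSpace Y] [ChartedSpace (Pool.Agent.H33.NC.E (d + 1)) Y]
      [TopologicalSpace T] [LocallyCompactSpace T]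
      [IsManifold (𝓡 (d + 1)) ∞ X] [IsManifold (𝓡 (d + 1)) ∞ Y] (e : X → Pool.Agent.H33.NC.E m)
      (j : Y → Pool.Agent.H33.NC.E k) (g0 : T → X → Y) (t0 : T) (x : X)
      (S : Set ℝ), Pool.Agent.H865_small.Imm (n := d + 1) e x → Pool.Agent.H865_small.Imm (n := d + 1) j (g0 t0 x) →
      (Continuous fun p : T × X => g0 p.1 p.2) →
      Continuous j → Pool.Agent.H33.PI.MidP e (fun t y => j (g0 t y)) S K δ t0 x →
      Pool.Agent.H33.PI.CG e (fun t y => j (g0 t y)) S (κ / 2) t0 x := by
    intro K
    by_cases hK : 1 ≤ K
    · obtain ⟨δ, hδ, h⟩ := Pool.Agent.H33.PI.cg_of_mid (d + 1) hn hK (η := κ / 2) (by positivity)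
      exact ⟨δ, fun _ => ⟨hδ, h⟩⟩
    · exact ⟨0, fun h => absurd h hK⟩
  choose δ hδ using H
  refine ⟨δ, fun K hK => (hδ K hK).1, ?_⟩
  intro M N _ _ _ _ _ _ _ _ _ _ _ m k e he j hj S hS φ₀ φ₁ h0 h1
  obtain ⟨he, hei, he'⟩ := he
  obtain ⟨hj, hji, hj'⟩ := hj
  constructor
  · rintro ⟨K, hK, hKd, hK0, hK1⟩
    refine ⟨⟨fun p : unitInterval × M => K ((p.1 : ℝ), p.2), ?_⟩, ?_, ?_, ?_⟩
    · exact hK.continuous.comp ((continuous_subtype_val.comp continuous_fst).prodMk continuous_snd)
    · intro x
      simpa using hK0 x
    · intro x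
      simpa using hK1 x
    · intro t x
      obtain ⟨K0, hK0, h⟩ := Pool.Agent.H33.PI.midP_of_smooth (e := e) (j := j) (x := x) (he' x) hj' hK (fun t x => by
        obtain ⟨Φ, hΦ⟩ := hKd t
        have e1 : (fun x => K (t, x)) = Φ := funext fun x => (hΦ x).symm
        rw [e1]
        exact Φ.isLocalDiffeomorph x) t S
      exact ⟨K0, hK0, h (δ K0) (hδ K0 hK0).1⟩
  · rintro ⟨f, hf0, hf1, hf⟩
    have e0 : IsDiffeo (d + 1) (fun x => f (0, x)) := by rw [show (fun x => f (0, x)) = φ₀ from funext hf0]; exact h0
    have e1 : IsDiffeo (d + 1) (fun x => f (1, x)) := by rw [show (fun x => f (1, x)) = φ₁ from funext hf1]; exact h1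
    have hmain := Pool.Agent.H33.PI.iso_final d m k M N unitInterval e he hei he' j hj hji hj' (fun t x => f (t, x))
      f.continuous S hS (η := κ / 2) (by positivity) (by rw [← hκd]; linarith) (fun t x => by
        obtain ⟨K, hK, h⟩ := hf t x
        exact (hδ K hK).2 m k M N unitInterval e j (fun t x => f (t, x)) t x S (he' x) (hj' _) f.continuous hj h)
      0 1 e0 e1
    obtain ⟨K, k1, k2, k3, k4⟩ := hmain
    exact ⟨K, k1, k2, fun x => by rw [k3, hf0], fun x => by rw [k4, hf1]⟩

end Pool.Agent.Results.MP_28b04d_gt.NearlyAntipodalPaths
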