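import Pool.Agent.H13.Gap.Fin

/-!
# MP_28b04d_gt, Q1: a gap theorem for the conformally invariant energy

Q1 asks whether every diffeomorphism of `CP²` that acts trivially on homology is smoothly isotopic to the identity.
Such a diffeomorphism `φ` has a lift `F` to a smooth map of `ℂ³ ∖ 0` with `F (c v) = c (F v)` for complex numbers `c`.
The theorem is stated for all projective spaces `CP^n`, `n ≥ 1`, modelled as in the frozen statement by the Hermitian
projections of rank one.

Let `F` be a smooth map of `ℂ^(n+1) ∖ 0` to `ℂ^(n+1)` with `F (c v) = c (F v)`, whose differential stretches every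
vector at least by the factor `m > 0`. There is a constant `ε > 0` which depends only on `n` such that the induced map
`φ` of `CP^n` is a diffeomorphism smoothly isotopic to the identity if the energy, the integral of `‖D²F‖^(2n)` over
the annulus `1 ≤ ‖x‖ ≤ 2`, is at most `(ε m)^(2n)`. For `CP²` this is the integral of the fourth power of the second
derivative, the scale invariant exponent in dimension four, for which a bound gives neither a modulus of continuity
of the differential nor closeness of the differential to a constant in the uniform norm (it may turn by any angle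
at small scales). There is no upper bound on the differential. The energy vanishes only for complex linear maps.

The proof. The energy controls the mean oscillation of the differential over the balls around the points of the unit
sphere at all scales `s ≤ 1/4`, by the inequality of Poincaré on balls of real dimension `2n + 2` and an averaging over
the multiplications by complex numbers (which accounts for the exponent `2n` instead of `2n + 2`). Hence the
homogeneous mollifications of `F` at all these scales are local diffeomorphisms; at the scale `1/16` the mollified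
differential is nearly constant on the sphere and nearly complex linear, so that the mollification is joined to a
complex linear isomorphism by a linear path.
-/

set_option autoImplicit false

open Set Function MeasureTheory
open scoped ContDiff

noncomputable section

namespace Pool.Agent.Results.MP_28b04d_gt.SmallEnergy

/-- `ℂ^(n+1)` -/
abbrev V (n : ℕ) : Type := EuclideanSpace ℂ (Fin (n + 1))

/-- the complex `(n+1) × (n+1)` matrices -/
abbrev Mat (n : ℕ) : Type := Fin (n + 1) → Fin (n + 1) → ℂ

/-- the projective space `CP^n`: the Hermitian idempotent matrices of trace one -/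
def CP (n : ℕ) : Set (Mat n) :=
  {P | (∀ i j, P j i = star (P i j)) ∧ (∀ i j, ∑ k, P i k * P k j = P i j) ∧ ∑ i, P i i = 1}

/-- the point of `CP^n` with homogeneous coordinates `v`: the orthogonal projection onto the line
of `v`, for `v ≠ 0` -/
def line {n : ℕ} (v : V n) : Mat n := fun i j => v i * star (v j) / ((‖v‖ ^ 2 : ℝ) : ℂ)

/-- `φ` is a diffeomorphism of `CP^n` smoothly isotopic to the identity, as in the frozen statement -/
def IsotopicToId {n : ℕ} (φ : Mat n → Mat n) : Prop :=
  ∃ K : ℝ × Mat n → Mat n, ContDiff ℝ ∞ K ∧ (∀ t : ℝ, ∀ P ∈ CP n, K (t, P) ∈ CP n) ∧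
    (∀ P ∈ CP n, K (0, P) = P) ∧ (∀ P ∈ CP n, K (1, P) = φ P) ∧
    ∀ t : ℝ, ∃ L : Mat n → Mat n, ContDiff ℝ ∞ L ∧
      ∀ P ∈ CP n, L P ∈ CP n ∧ L (K (t, P)) = P ∧ K (t, L P) = P

/-- the norm of the real differential of `F` at `v` in the direction `h` -/
def stretch {n : ℕ} (F : V n → V n) (v h : V n) : ℝ := ‖fderiv ℝ F v h‖

/-- the operator norm of the second derivative of `F` at `x` -/
def secondNorm {n : ℕ} (F : V n → V n) (x : V n) : ℝ := ‖iteratedFDeriv ℝ 2 F x‖

/-- `F` is smooth off the origin, homogeneous under multiplication by complex numbers, a lift of `φ`, and its real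
differential stretches all vectors at least by the factor `m` -/
structure IsLift {n : ℕ} (φ : Mat n → Mat n) (F : V n → V n) (m : ℝ) : Prop where
  smooth : ContDiffOn ℝ ∞ F {0}ᶜ
  hom : ∀ (c : ℂ) (v : V n), F (c • v) = c • F v
  lift : ∀ v, v ≠ 0 → φ (line v) = line (F v)
  lower : ∀ v, v ≠ 0 → ∀ h, m * ‖h‖ ≤ stretch F v h

/-- the energy: the integral of the power `2 n` of the norm of the second derivative over the annulus -/
def energy {n : ℕ} (F : V n → V n) : ℝ :=
  ∫ x in {x : V n | 1 ≤ ‖x‖ ∧ ‖x‖ ≤ 2}, secondNorm F x ^ (2 * n)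

lemma secondNorm_eq {n : ℕ} (F : V n → V n) (x : V n) : secondNorm F x = ‖fderiv ℝ (fderiv ℝ F) x‖ := by
  unfold secondNorm
  rw [← norm_iteratedFDeriv_fderiv, norm_iteratedFDeriv_one]

theorem result (n : ℕ) (hn : 1 ≤ n) : ∃ ε : ℝ, 0 < ε ∧ ∀ (φ : Mat n → Mat n) (F : V n → V n) (m : ℝ),
    0 < m → IsLift φ F m → energy F ≤ (ε * m) ^ (2 * n) → IsotopicToId φ := by
  set k := Pool.Agent.H13.Gap.kn (V n) with hk
  have hkp : 0 < k := Pool.Agent.H13.Gap.kn_pos
  set e := (Pool.Agent.H13.Gap.ce n).toReal with he
  have hep : 0 ≤ e := ENNReal.toReal_nonneg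
  refine ⟨1 / (240 * k * (1 + e)), by positivity, ?_⟩
  intro φ F m hm hF hc
  set ε := 1 / (240 * k * (1 + e)) with hε
  have hεp : 0 < ε := by positivity
  have hr : ∀ (r : ℝ) (v : V n), r • v = ((r : ℂ)) • v := fun r v => (Complex.coe_smul r v).symm
  have hhomR : ∀ r : ℝ, 0 ≤ r → ∀ v, F (r • v) = r • F v := by
    intro r _ v
    rw [hr, hr, hF.hom]
  have hL : Pool.Agent.H13.Gap.Lower F m := ⟨hF.smooth, hhomR, hF.lower⟩
  have hU : ∀ R ∈ Pool.Agent.Q196.NP.U1 n, ∀ v, F (R v) = R (F v) := by
    rintro _ ⟨μ, hμ, rfl⟩ v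
    exact hF.hom μ v
  have hHD : Pool.Agent.Q196.NP.HD (Pool.Agent.Q196.NP.U1 n) F := by
    refine ⟨hhomR, hU, fun v hv => ?_⟩
    obtain ⟨A, hA⟩ := Pool.Agent.H13.Gap.equiv_of_lower hm (hF.lower v hv)
    exact ⟨A, by rw [hA]; exact Pool.Agent.H13.Gap.hasF hF.smooth hv⟩
  have hc : ∫ x in Pool.Agent.H13.Gap.Ann n, ‖fderiv ℝ (fderiv ℝ F) x‖ ^ (2 * n) ≤ (ε * m) ^ (2 * n) := by
    simp_rw [← secondNorm_eq]
    exact hc
  have hκ : ∀ v, ‖v‖ = 1 → ∀ s, 0 < s → s ≤ 1 / 4 →
      Pool.Agent.H13.Gap.Small F (e * (ε * m)) s v := by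
    intro v hv s hs hs1
    have hE := Pool.Agent.H13.Gap.energy_lint hF.smooth (S := Pool.Agent.H13.Gap.Ann n) subset_rfl hc
    obtain ⟨C, hC⟩ := Pool.Agent.H13.Gap.osc_energy hn hF.smooth hF.hom hv hs hs1
      (δ := ε * m) (by positivity)
      ((lintegral_mono_set (Pool.Agent.H13.Gap.tube_sub v s)).trans hE)
    refine Pool.Agent.H13.Gap.small_of_lint hF.smooth hs (by rw [hv]; linarith)
      (C := C) (by positivity) (hC.trans (le_of_eq ?_))
    rw [ENNReal.ofReal_mul hep, he, ENNReal.ofReal_toReal (Pool.Agent.H13.Gap.ce_ne_top hn)]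
  have hsm : 240 * (k * (e * (ε * m))) ≤ m := by
    have h1 : 240 * k * e * ε ≤ 1 := by
      rw [hε, mul_one_div, div_le_one (by positivity)]
      nlinarith [mul_nonneg hkp.le hep]
    nlinarith
  exact Pool.Agent.Q196.NP.proj_isotopy hF.lift
    (Pool.Agent.H13.Gap.iso_small hL hm hU hHD hκ hsm)

end Pool.Agent.Results.MP_28b04d_gt.SmallEnergy
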