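import Pool.Agent.H33.QS.Main

/-!
# MP_28b04d_gt, Q1: weakly quasisymmetric diffeomorphisms of the projective space

Q1 asks whether every diffeomorphism of `CP²` that acts trivially on homology is smoothly isotopic to the identity.
The theorem gives a positive answer for the diffeomorphisms which almost preserve the order of the distances from each
point. It is stated for all projective spaces `CP^n`, `n ≥ 2`, modelled as in the frozen statement by the Hermitian
projections `P` of rank one, with the distance `chord P Q = √(1 - Re tr (P Q))` (this is the distance of the matrices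
divided by `√2`, and the sine of the Fubini-Study distance, normalised to have diameter `π / 2`).

There is a constant `H > 1`, which depends only on `n`, such that every diffeomorphism `φ` of `CP^n` which is weakly
`H`-quasisymmetric, that is,

* `chord (φ P) (φ Q) ≤ H * chord (φ P) (φ R)` for all `P`, `Q`, `R` with `chord P Q ≤ chord P R`,

is smoothly isotopic to the identity or to the complex conjugation. The conjugation acts on the second cohomology as
`-1`, so that the diffeomorphisms of Q1 with this property are isotopic to the identity.

The condition says that the images of all metric balls (of all radii) are nearly round, in the sense of the metric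
theory of quasiconformal maps. There is no Lipschitz bound, for `φ` or for its inverse: the images of the balls of
radius `r` may be much smaller or larger than the balls, by factors which are not bounded as `r` tends to zero, and
there is no condition on the variation of the differential. (Almost isometric maps, that is, the maps with
`(1 - ε) chord P Q ≤ chord (φ P) (φ Q) ≤ (1 + ε) chord P Q`, are a special case.)

The proof.
* Equicontinuity (`ec`): if `M * chord P Q ≤ chord P R` then `chord (φ P) (φ Q) ≤ η * chord (φ P) (φ R)`, where `M`
  depends only on `η`; otherwise `φ` would map many equally spaced points of a geodesic to points which are far apart,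
  compared with the size of the image of the geodesic.
* By equicontinuity the condition is stable under small relative changes of the distances (`robust`), hence in affine
  charts the maps have the property that the images of unit spheres, at each small scale, are nearly round. A
  quantitative theorem of Beckman and Quarles (`near`, proved for another problem) shows that `φ` is close to a
  similarity on all balls of a small radius (`ns_of_wq`); the factor depends on the ball.
* Along an ultrafilter, weakly `H_k`-quasisymmetric maps with `H_k → 1` converge to a map which preserves the order of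
  the distances from each point and orthogonality. For an orthonormal basis `b_i` the transition probabilities
  `Re tr (φ P φ b_i)` have the sum one, so the transition probability between the images is an additive function of
  the transition probability, hence equal to it (`exact`). By Wigner's theorem `φ` is uniformly close to a map which is
  induced by a unitary or an antiunitary map `U` (`close_of_wq`).
* The homogeneous map `x ↦ U⁻¹ (φ [x] (U x))` of `ℂ^(n+1)` is close to a linear isomorphism on each small ball, in the
  sense that is needed for mollification (`near_lft`): the linear map has to be adapted to the ball, since the tangential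
  factor of the similarity may be very large or very small compared with the factor one in the direction of the line,
  and the quadratic terms are controlled by a growth estimate (`growth`). Hence it is isotopic to its mollifications at
  the scales `s ≤ ρ`, and at the scale `ρ` linear interpolation with the identity is possible.
-/

set_option autoImplicit false

open Set Function
open scoped ContDiff

noncomputable section

namespace Pool.Agent.Results.MP_28b04d_gt.WeaklyQuasisymmetric

/-- the complex `(n+1) × (n+1)` matrices -/
abbrev Mat (n : ℕ) : Type := Fin (n + 1) → Fin (n + 1) → ℂ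

/-- the projective space `CP^n`: the Hermitian idempotent matrices of trace one -/
def CP (n : ℕ) : Set (Mat n) :=
  {P | (∀ i j, P j i = star (P i j)) ∧ (∀ i j, ∑ k, P i k * P k j = P i j) ∧ ∑ i, P i i = 1}

/-- `φ` is a diffeomorphism of `CP^n` -/
def IsDiffeo {n : ℕ} (φ : Mat n → Mat n) : Prop :=
  ContDiff ℝ ∞ φ ∧ (∀ P ∈ CP n, φ P ∈ CP n) ∧ ∃ ψ : Mat n → Mat n, ContDiff ℝ ∞ ψ ∧
    ∀ P ∈ CP n, ψ P ∈ CP n ∧ ψ (φ P) = P ∧ φ (ψ P) = P

/-- `φ` and `ψ` are joined by a smooth path of diffeomorphisms of `CP^n` -/
def SmoothlyIsotopic {n : ℕ} (φ ψ : Mat n → Mat n) : Prop :=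
  ∃ K : ℝ × Mat n → Mat n, ContDiff ℝ ∞ K ∧ (∀ t : ℝ, ∀ P ∈ CP n, K (t, P) ∈ CP n) ∧
    (∀ P ∈ CP n, K (0, P) = φ P) ∧ (∀ P ∈ CP n, K (1, P) = ψ P) ∧
    ∀ t : ℝ, ∃ L : Mat n → Mat n, ContDiff ℝ ∞ L ∧
      ∀ P ∈ CP n, L P ∈ CP n ∧ L (K (t, P)) = P ∧ K (t, L P) = P

/-- the chordal distance: the square root of `1 - Re tr (P Q)` -/
def chord {n : ℕ} (P Q : Mat n) : ℝ := √(1 - (∑ i, ∑ j, P i j * Q j i).re)

/-- complex conjugation -/
def conj {n : ℕ} (P : Mat n) : Mat n := fun i j => star (P i j)

/-- `φ` is weakly `H`-quasisymmetric on `CP^n`, for the chordal distance -/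
def IsWeaklyQuasisymmetric {n : ℕ} (H : ℝ) (φ : Mat n → Mat n) : Prop :=
  ∀ P ∈ CP n, ∀ Q ∈ CP n, ∀ R ∈ CP n, chord P Q ≤ chord P R → chord (φ P) (φ Q) ≤ H * chord (φ P) (φ R)

theorem result (n : ℕ) (hn : 2 ≤ n) : ∃ H : ℝ, 1 < H ∧ ∀ φ : Mat n → Mat n, IsDiffeo φ →
    IsWeaklyQuasisymmetric H φ → SmoothlyIsotopic id φ ∨ SmoothlyIsotopic conj φ := by
  obtain ⟨H, hH, h⟩ := Pool.Agent.H33.QS.wq_main hn
  refine ⟨H, hH, fun φ hφ hq => ?_⟩
  obtain ⟨hφs, hφm, ψ, hψs, hψ⟩ := hφ
  rcases h φ ψ hφs hψs hφm hψ hq with ⟨F, hI, hF⟩ | ⟨F, hI, hF⟩
  · left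
    exact Pool.Agent.Q196.NP.proj_isotopy hF hI
  · right
    obtain ⟨K, hK, h1, h2, h3, h4⟩ := Pool.Agent.Q196.NP.proj_isotopy
      (φ := fun P => φ (Pool.Agent.H13.Wig.cjM P)) hF hI
    have hcM : ∀ P ∈ CP n, Pool.Agent.H13.Wig.cjM P ∈ CP n := by
      intro P hP
      obtain ⟨v, hv, rfl⟩ := Pool.Agent.Q196.NP.exists_line hP
      rw [← Pool.Agent.H13.Wig.line_cj]
      exact Pool.Agent.Q196.NP.line_mem (Pool.Agent.H13.Wig.cj_ne hv)
    refine ⟨fun p => K (p.1, Pool.Agent.H13.Wig.cjM p.2), ?_, ?_, ?_, ?_, ?_⟩
    · exact hK.comp (contDiff_fst.prodMk (Pool.Agent.H13.Wig.cjM_smooth.comp contDiff_snd))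
    · intro t P hP
      exact h1 t _ (hcM P hP)
    · intro P hP
      exact h2 _ (hcM P hP)
    · intro P hP
      show K (1, Pool.Agent.H13.Wig.cjM P) = φ P
      rw [h3 _ (hcM P hP), Pool.Agent.H13.Wig.cjM_cjM]
    · intro t
      obtain ⟨L, hL, hL1⟩ := h4 t
      refine ⟨fun P => Pool.Agent.H13.Wig.cjM (L P), Pool.Agent.H13.Wig.cjM_smooth.comp hL,
        fun P hP => ?_⟩
      obtain ⟨a1, a2, a3⟩ := hL1 P hP
      refine ⟨hcM _ a1, ?_, ?_⟩
      · show Pool.Agent.H13.Wig.cjM (L (K (t, Pool.Agent.H13.Wig.cjM P))) = P
        rw [(hL1 _ (hcM P hP)).2.1, Pool.Agent.H13.Wig.cjM_cjM]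
      · show K (t, Pool.Agent.H13.Wig.cjM (Pool.Agent.H13.Wig.cjM (L P))) = P
        rw [Pool.Agent.H13.Wig.cjM_cjM, a3]

end Pool.Agent.Results.MP_28b04d_gt.WeaklyQuasisymmetric
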